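import Pool.Agent.Helper84_LQZ.INIc

/-!
# The parameters (all energies of the bulk): the final statement
-/

set_option autoImplicit false

open MeasureTheory ProbabilityTheory Function Filter

open scoped ENNReal BigOperators Topology NNReal ComplexOrder Matrix

noncomputable section

namespace Pool.Agent.LE.QZ.H84

open Pool.Agent.Anderson hiding box mem_box card_box
open Pool.Agent.Loc Pool.Agent.Mob Pool.Agent.Helper54.Bal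
  Pool.Agent.Helper96.EXP Pool.Agent.BED
open Pool.Agent.LE.MN Pool.Agent.LE.CL Pool.Agent.LE.IR Pool.Agent.LE.QD Pool.Agent.LE.QF
open Pool.Agent.LE.QF.H68

variable {K : Cst} {M : ℕ} [NeZero M] {s E η : ℝ} {m : ℂ} {i : Fin K.d} {ξ : ℝ}

namespace GivZ

/-- the sums of `S` -/
theorem sSm (g : GivZ K M s E η m) (hK : K.Ok) (F : FacZ K) (C' : Finset (Tor K.d M))
    (hC : (C'.card : ℝ) ≤ (s ^ (K.ε - 1) / Real.sqrt η) ^ K.d)
    (hC2 : (C'.card : ℝ) ≤ s ^ K.ε * (M : ℝ) ^ K.d) :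
    ∑ x ∈ C', ∑ y ∈ C', (mkZ K s E η m i ξ M).S x y ≤ s ^ (4 * (K.θ / 8)) * C'.card / η := by
  have hs := g.hs.q0.1
  have hw := g.wpos hK
  have hη := g.ηpos
  have hcs0 : 0 < K.cs := by linarith [hK.hcs]
  have hε1 := hK.hε.2
  have hε := hK.hε.1
  have hM := g.Mpos
  have hsη : 0 < Real.sqrt η := Real.sqrt_pos.2 hη
  set ρ : ℝ := s ^ (1 - K.ε / 4) * Real.sqrt η with hρ
  have hρ0 : 0 < ρ := by positivity
  -- `ρ^d |C'| ≤ 1`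
  have a3 : ρ ^ K.d * (C'.card : ℝ) ≤ 1 := by
    calc ρ ^ K.d * (C'.card : ℝ) ≤ ρ ^ K.d * (s ^ (K.ε - 1) / Real.sqrt η) ^ K.d := by gcongr
      _ = (s ^ (1 - K.ε / 4) * s ^ (K.ε - 1)) ^ K.d := by
          rw [← mul_pow]
          congr 1
          rw [hρ]
          field_simp
      _ ≤ 1 := by
          apply pow_le_one₀ (by positivity)
          rw [← Real.rpow_add hs]
          apply Real.rpow_le_one hs.le g.s1
          linarith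
  have hex : ∃ J₁ : ℕ, 1 ≤ J₁ ∧ ρ ≤ (J₁ : ℝ) / M ∧
      ((J₁ : ℝ) / M) ^ K.d * (C'.card : ℝ) ≤ 2 ^ K.d := by
    by_cases hMρ : 1 ≤ (M : ℝ) * ρ
    · obtain ⟨hJ1, hJ2, hJ3⟩ := ceil_bound g.Mpos hMρ
      refine ⟨⌈(M : ℝ) * ρ⌉₊, hJ1, hJ2, ?_⟩
      calc ((⌈(M : ℝ) * ρ⌉₊ : ℝ) / M) ^ K.d * (C'.card : ℝ)
          ≤ (2 * ρ) ^ K.d * (C'.card : ℝ) := by gcongr
        _ = 2 ^ K.d * (ρ ^ K.d * (C'.card : ℝ)) := by
            rw [mul_pow]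
            ring
        _ ≤ 2 ^ K.d * 1 := by gcongr
        _ = 2 ^ K.d := mul_one _
    · push Not at hMρ
      refine ⟨1, le_refl _, ?_, ?_⟩
      · rw [Nat.cast_one, le_div_iff₀ hM, mul_comm]
        exact hMρ.le
      · have h1 : s ^ K.ε ≤ 1 := Real.rpow_le_one hs.le g.s1 hε.le
        calc (((1 : ℕ) : ℝ) / M) ^ K.d * (C'.card : ℝ)
            ≤ (((1 : ℕ) : ℝ) / M) ^ K.d * (s ^ K.ε * (M : ℝ) ^ K.d) := by gcongr
          _ = s ^ K.ε := by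
              rw [div_pow, Nat.cast_one, one_pow]
              field_simp
          _ ≤ 1 := h1
          _ ≤ 2 ^ K.d := one_le_pow₀ (by norm_num)
  obtain ⟨J₁, hJ1, hJ2, hJ3⟩ := hex
  have h1 := F.mss M (Jv K s M) J₁ K.cs (wv s η m) C' hJ1 hcs0 hw
  have hJ0 : (0 : ℝ) < (J₁ : ℝ) := by
    have : 0 < J₁ := by omega
    exact_mod_cast this
  have h2 : wv s η m * (M : ℝ) ^ 2 / (J₁ : ℝ) ^ 2 = wv s η m / ((J₁ : ℝ) / M) ^ 2 := by
    field_simp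
  rw [h2] at h1
  refine h1.trans ?_
  exact sSz_bound hK.hd hs g.s1 hε hε1 hK.hcm.1 (by linarith [hK.Cwpos]) g.w1 (g.w2 hK) hη
    g.hη2 (by linarith [hK.hCS]) hcs0.le hJ2 (Nat.cast_nonneg _) hJ3 rfl g.hs.z8

end GivZ

theorem ini (mbr : MbrStmt) (frb : FrbStmt) (gal : GalStmt) (khb : KhbStmt)
    (inm : InmStmt) (inw : InwStmt) (mss : MssStmt) (kft : KftStmt) (ral : RalStmt)
    (ixi : IxiStmt) (ixu : IxuStmt) (imm : ImmStmt) :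
    IniStmt := by
  intro d a ε hd ha hε hε1
  obtain ⟨cm, Cm, hcm, hcm1, hCm, hmbr⟩ := mbr d a hd ha
  obtain ⟨CI, hCI, hinm⟩ := inm d hd
  obtain ⟨CK, hCK, hkhb⟩ := khb d hd
  obtain ⟨CB, hCB, himm⟩ := imm d hd
  obtain ⟨CF, hCF, hfrb⟩ := frb d hd
  obtain ⟨CS, hCS, hmss⟩ := mss d hd
  obtain ⟨cG, CG, hcG, hcG2, hCG, hgal⟩ := gal d (a / 2) hd (by positivity)
  have hd3 : (3 : ℝ) ≤ d := by exact_mod_cast hd
  set θ : ℝ := ε / (24 * d) with hθ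
  have hθ0 : 0 < θ := by positivity
  have hθ1 : θ / 8 ≤ ε / 100 := by
    have h1 : θ ≤ ε / 72 := by
      rw [hθ, div_le_div_iff₀ (by positivity) (by norm_num)]
      nlinarith
    linarith
  set k₀ : ℕ := ⌈(d : ℝ) * (4 * d + 6) / (6 * θ)⌉₊ + 1 with hk₀
  have hk : (d : ℝ) * (4 * d + 6) < 6 * k₀ * θ := by
    have h1 : (d : ℝ) * (4 * d + 6) / (6 * θ) ≤ (⌈(d : ℝ) * (4 * d + 6) / (6 * θ)⌉₊ : ℝ) :=
      Nat.le_ceil _
    have h2 : (k₀ : ℝ) = (⌈(d : ℝ) * (4 * d + 6) / (6 * θ)⌉₊ : ℝ) + 1 := by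
      rw [hk₀]
      push_cast
      ring
    have h3 : (d : ℝ) * (4 * d + 6) / (6 * θ) < k₀ := by linarith
    rw [div_lt_iff₀ (by positivity)] at h3
    linarith
  refine ⟨θ / 8, cm, max Cm CF, by positivity, hθ1, hcm, hCm.trans (le_max_left _ _), ?_⟩
  intro c₀ hc₀
  set cs : ℝ := max 1 (2 * Cm / cG) with hcs
  set K : Cst := ⟨d, k₀, ε, a, c₀, cm, Cm, CI, CK, CB, CF, CS, cG, CG, cs⟩ with hKd
  have hK : K.Ok :=
    { hd := hd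
      hε := ⟨hε, hε1⟩
      ha := ha
      hc₀ := hc₀
      hcm := ⟨hcm, hcm1⟩
      hCm := hCm
      hCI := hCI
      hCK := hCK
      hCB := hCB
      hCF := hCF
      hCS := hCS
      hcG := hcG
      hCG := hCG
      hcs := le_max_left _ _
      hk₀ := hk }
  have F : FacZ K :=
    { khb := hkhb
      imm := himm
      frb := hfrb
      inm := hinm
      gal := hgal
      mss := hmss }
  have hcs2 : 2 * K.Cm ≤ K.cG * K.cs := by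
    have h1 : 2 * Cm / cG ≤ cs := le_max_right _ _
    rw [div_le_iff₀ hcG] at h1
    show 2 * Cm ≤ cG * cs
    linarith
  obtain ⟨c, hc0, hc4, hc⟩ := exists_cZ hK
  have hC0 : (1 : ℝ) ≤ max 8000 (100 / cm ^ 2) := le_trans (by norm_num) (le_max_left _ _)
  refine ⟨c, max 8000 (100 / cm ^ 2), hc0, hc4, hC0, ?_⟩
  intro M _ σ E η hσ hσc hE2 hM1 hM2 hM3 hη2
  have hs0 : 0 < |σ| := abs_pos.2 hσ
  have hs2 : σ ^ 2 = |σ| ^ 2 := (sq_abs σ).symm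
  have hs2c : (σ : ℂ) ^ 2 = ((|σ| ^ 2 : ℝ) : ℂ) := by
    rw [← hs2]
    push_cast
    ring
  rw [hs2c, hs2]
  generalize |σ| = s at hs0 hσc hη2 hM1 hM2 hM3
  have hcnd := hc s hs0 hσc
  have hs1 : s ≤ 1 := by linarith
  have hM : (0 : ℝ) < M := by
    have : 0 < M := Nat.pos_of_ne_zero (NeZero.ne M)
    exact_mod_cast this
  have hη0 : 0 < η := by
    have h1 : 0 < η * (M : ℝ) ^ d := lt_of_lt_of_le (by positivity) hM3
    exact (pos_iff_pos_of_mul_pos h1).2 (by positivity)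
  have hηT : η ≤ s ^ 2 := hη2.trans (pow_le_pow_of_le_one hs0.le hs1 (by norm_num))
  have hMT : Cm / (s ^ 2) ^ 2 ≤ M := by
    have h1 : Cm * s ≤ 1 := hcnd.q3.2.2.2.2
    calc Cm / (s ^ 2) ^ 2 = Cm * s * (s ^ 5)⁻¹ := by field_simp
      _ ≤ 1 * (s ^ 5)⁻¹ := by gcongr
      _ = s ^ (-5 : ℝ) := by
          rw [one_mul, Real.rpow_neg hs0.le]
          congr 1
          rw [← Real.rpow_natCast]
          norm_num
      _ ≤ M := hM1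
  obtain ⟨m, hm0, hm1, hm2, hm3⟩ := hmbr M E η (s ^ 2) hE2 hη0 hηT hcnd.q1.1 hMT
  have g : GivZ K M s E η m :=
    ⟨hcnd, hE2, hη2, hM1, hM2, hM3, hm0, hm1, hm2, hm3⟩
  have hx := g.xpos
  have hx1 := g.x1
  have hy := g.ypos
  have hy1 := g.y1 hK
  have hw := g.wpos hK
  have hθK : K.θ = θ := rfl
  have hy4 : s ^ (4 * (θ / 8)) = (s ^ (K.θ / 8)) ^ 4 := by
    rw [xpow hs0, hθK]
    norm_num
  have hxy4 : s ^ K.θ ≤ (s ^ (K.θ / 8)) ^ 4 := by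
    rw [g.xy]
    exact pow_le_pow_of_le_one hy.le hy1 (by norm_num)
  have hmn : ‖m‖ ≤ CF := by
    have hz : 0 < (⟨E, η⟩ + ((s ^ 2 : ℝ) : ℂ) * m : ℂ).im := by
      rw [g.imz]
      exact hw
    have h1 := (F.frb M (⟨E, η⟩ + ((s ^ 2 : ℝ) : ℂ) * m) hz
      (by rw [g.imz]; linarith [g.w_half hK]) (by rw [g.imz]; exact g.MF hK) 0).1 0
    rw [g.hm] at h1
    exact h1
  refine ⟨m, hm1, hmn.trans (le_max_right _ _), fun x => g.m_diag hK ral x, ?_⟩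
  intro i ξ hξ
  have hadm : Adm (mkZ K s E η m i ξ M) cm (max Cm CF) c₀ :=
    g.adm hK F kft inw ral ixi ixu hξ hcs2
  refine ⟨mkZ K s E η m i ξ M, hadm, rfl, rfl, rfl, rfl, rfl, rfl, rfl,
    (g.h6m hK kft ixu hξ).1, ?_, ?_, ?_, ?_, ?_, ?_, ?_⟩
  · show (M : ℝ) ^ 2 ≤ max 8000 (100 / cm ^ 2) * ξ * (M : ℝ) ^ d / s ^ 2 *
      (cm * wv s η m * (M : ℝ) ^ 2 / (100 * (M : ℝ) ^ d * ξ))
    have h1 : 100 / cm ^ 2 ≤ max 8000 (100 / cm ^ 2) := le_max_right _ _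
    have h2 : cm * s ^ 2 ≤ wv s η m := g.w1
    calc (M : ℝ) ^ 2 = 100 / cm ^ 2 * ξ * (M : ℝ) ^ d / s ^ 2 *
          (cm * (cm * s ^ 2) * (M : ℝ) ^ 2 / (100 * (M : ℝ) ^ d * ξ)) := by
          field_simp
      _ ≤ max 8000 (100 / cm ^ 2) * ξ * (M : ℝ) ^ d / s ^ 2 *
          (cm * wv s η m * (M : ℝ) ^ 2 / (100 * (M : ℝ) ^ d * ξ)) := by
          gcongr
  · rw [hy4]
    refine (g.aNm hK).trans ?_
    have : (8000 : ℝ) ≤ max 8000 (100 / cm ^ 2) := le_max_left _ _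
    gcongr
  · show (⌈((s ^ K.θ) ^ 4)⁻¹⌉₊ : ℝ) ≤ s ^ (-1 : ℝ)
    have h1 := Nat.ceil_lt_add_one (by positivity : 0 ≤ ((s ^ K.θ) ^ 4)⁻¹)
    have h2 := g.xi 4
    have h3 : 2 * ((s ^ K.θ) ^ 4)⁻¹ ≤ s⁻¹ := by
      have h4 := hcnd.q20
      rw [← div_eq_mul_inv, div_le_iff₀ (by positivity), inv_mul_eq_div, le_div_iff₀ hs0]
      exact h4
    rw [Real.rpow_neg_one]
    linarith
  · rw [hy4]
    show (s ^ K.θ) ^ 5 ≤ (s ^ (K.θ / 8)) ^ 4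
    calc (s ^ K.θ) ^ 5 ≤ (s ^ K.θ) ^ 1 := pow_le_pow_of_le_one hx.le hx1 (by norm_num)
      _ = s ^ K.θ := pow_one _
      _ ≤ (s ^ (K.θ / 8)) ^ 4 := hxy4
  · rw [hy4]
    show 1 + (s ^ K.θ) ^ 3 - 1 ≤ (s ^ (K.θ / 8)) ^ 4
    calc 1 + (s ^ K.θ) ^ 3 - 1 = (s ^ K.θ) ^ 3 := by ring
      _ ≤ (s ^ K.θ) ^ 1 := pow_le_pow_of_le_one hx.le hx1 (by norm_num)
      _ = s ^ K.θ := pow_one _
      _ ≤ (s ^ (K.θ / 8)) ^ 4 := hxy4
  · have h1 : s ^ (-(4 * (θ / 8))) = (s ^ (K.θ / 8))⁻¹ ^ 4 := by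
      rw [Real.rpow_neg hs0.le, hy4, inv_pow]
    rw [h1]
    exact g.bNm hK
  · intro C' hC hC2
    exact g.sSm hK F C' hC hC2

end Pool.Agent.LE.QZ.H84
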