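import Pool.Agent.Helper68_LQF.INIb

/-!
# The parameters (all energies of the bulk): numbers, the conditions on `s = |σ|`
-/

set_option autoImplicit false

open Filter

open scoped BigOperators Topology

noncomputable section

namespace Pool.Agent.LE.QZ.H84

open Pool.Agent.LE.QF.H68

/-- the errors -/
theorem aNz_bound {Nw pe x y j p h ch : ℝ} (hy : 0 < y) (hy1 : y ≤ 1) (hxy : x = y ^ 8)
    (hN : Nw ≤ x ^ 20) (hp : pe ≤ x ^ 20) (hj0 : 0 ≤ j) (hj : j ≤ 2 / x)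
    (hpp0 : 0 ≤ p) (hpp : p ≤ 2 / x ^ 4) (hh0 : 0 ≤ h) (hh : h ≤ 5 / y ^ 2)
    (hch : ch = (x ^ 6)⁻¹ * (Nw + pe + (x ^ 5) ^ 4)) :
    j * (h ^ 2 * (x ^ 5 + Real.sqrt ch / x ^ 5)) +
      j ^ 2 * (h ^ 4 * (ch / (x ^ 5) ^ 2) + Nw + x ^ 5 +
        1 / Real.sqrt ((x ^ 6)⁻¹) + (1 + x ^ 3 - 1)) +
      p * x ^ 5 + p ^ 2 * (Nw + (x ^ 5) ^ 2 + pe) ≤ 8000 * y ^ 4 := by
  have hx : 0 < x := by
    rw [hxy]
    positivity
  have hx1 : x ≤ 1 := by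
    rw [hxy]
    exact pow_le_one₀ hy.le hy1
  have hpow : ∀ m n : ℕ, n ≤ m → x ^ m ≤ x ^ n := fun m n h =>
    pow_le_pow_of_le_one hx.le hx1 h
  have hxy4 : x ≤ y ^ 4 := by
    rw [hxy]
    exact pow_le_pow_of_le_one hy.le hy1 (by norm_num)
  have hch1 : ch ≤ 3 * x ^ 14 := by
    rw [hch]
    calc (x ^ 6)⁻¹ * (Nw + pe + (x ^ 5) ^ 4) ≤ (x ^ 6)⁻¹ * (x ^ 20 + x ^ 20 + (x ^ 5) ^ 4) := by
          gcongr
      _ = 3 * x ^ 14 := by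
          field_simp
          ring
  have hsq : Real.sqrt ch ≤ 2 * x ^ 7 := by
    apply Real.sqrt_le_iff.2
    refine ⟨by positivity, ?_⟩
    have : (2 * x ^ 7) ^ 2 = 4 * x ^ 14 := by ring
    rw [this]
    have : 0 ≤ x ^ 14 := by positivity
    linarith
  have t1 : x ^ 5 + Real.sqrt ch / x ^ 5 ≤ 3 * x ^ 2 := by
    have a1 : x ^ 5 ≤ x ^ 2 := hpow _ _ (by norm_num)
    have a2 : Real.sqrt ch / x ^ 5 ≤ 2 * x ^ 2 := by
      rw [div_le_iff₀ (by positivity)]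
      calc Real.sqrt ch ≤ 2 * x ^ 7 := hsq
        _ = 2 * x ^ 2 * x ^ 5 := by ring
    linarith
  have t2 : ch / (x ^ 5) ^ 2 ≤ 3 * x ^ 4 := by
    rw [div_le_iff₀ (by positivity)]
    calc ch ≤ 3 * x ^ 14 := hch1
      _ = 3 * x ^ 4 * (x ^ 5) ^ 2 := by ring
  have t3 : Nw + x ^ 5 + 1 / Real.sqrt ((x ^ 6)⁻¹) + (1 + x ^ 3 - 1) ≤ 4 * x ^ 3 := by
    have a2 : Nw ≤ x ^ 3 := hN.trans (hpow _ _ (by norm_num))
    have a3 : 1 / Real.sqrt ((x ^ 6)⁻¹) = x ^ 3 := by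
      rw [Real.sqrt_inv, show x ^ 6 = (x ^ 3) ^ 2 by ring, Real.sqrt_sq (by positivity)]
      simp
    have a4 : x ^ 5 ≤ x ^ 3 := hpow _ _ (by norm_num)
    rw [a3]
    linarith
  have t4 : Nw + (x ^ 5) ^ 2 + pe ≤ 3 * x ^ 10 := by
    have : x ^ 20 ≤ x ^ 10 := hpow _ _ (by norm_num)
    have e : (x ^ 5) ^ 2 = x ^ 10 := by ring
    rw [e]
    linarith
  have hh2 : h ^ 2 ≤ 25 / y ^ 4 := by
    calc h ^ 2 ≤ (5 / y ^ 2) ^ 2 := by gcongr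
      _ = 25 / y ^ 4 := by
          field_simp
          norm_num
  have hh4 : h ^ 4 ≤ 625 / x := by
    calc h ^ 4 = (h ^ 2) ^ 2 := by ring
      _ ≤ (25 / y ^ 4) ^ 2 := by gcongr
      _ = 625 / x := by
          rw [hxy]
          field_simp
          norm_num
  have u1 : j * (h ^ 2 * (x ^ 5 + Real.sqrt ch / x ^ 5)) ≤ 150 * y ^ 4 := by
    have b1 : 0 ≤ x ^ 5 + Real.sqrt ch / x ^ 5 := by positivity
    calc j * (h ^ 2 * (x ^ 5 + Real.sqrt ch / x ^ 5))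
        ≤ 2 / x * (25 / y ^ 4 * (3 * x ^ 2)) := by gcongr
      _ = 150 * (x / y ^ 4) := by
          field_simp
          ring
      _ = 150 * y ^ 4 := by
          have : x / y ^ 4 = y ^ 4 := by
            rw [hxy]
            field_simp
          rw [this]
  have u2 : j ^ 2 * (h ^ 4 * (ch / (x ^ 5) ^ 2) + Nw + x ^ 5 +
        1 / Real.sqrt ((x ^ 6)⁻¹) + (1 + x ^ 3 - 1)) ≤ 7520 * y ^ 4 := by
    have b1 : h ^ 4 * (ch / (x ^ 5) ^ 2) ≤ 1875 * x ^ 3 := by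
      calc h ^ 4 * (ch / (x ^ 5) ^ 2) ≤ h ^ 4 * (3 * x ^ 4) := by gcongr
        _ ≤ 625 / x * (3 * x ^ 4) := by gcongr
        _ = 1875 * x ^ 3 := by
            field_simp
            ring
    have b2 : h ^ 4 * (ch / (x ^ 5) ^ 2) + Nw + x ^ 5 +
        1 / Real.sqrt ((x ^ 6)⁻¹) + (1 + x ^ 3 - 1) ≤ 1880 * x ^ 3 := by
      have : 0 < x ^ 3 := by positivity
      linarith
    calc j ^ 2 * (h ^ 4 * (ch / (x ^ 5) ^ 2) + Nw + x ^ 5 +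
        1 / Real.sqrt ((x ^ 6)⁻¹) + (1 + x ^ 3 - 1)) ≤ j ^ 2 * (1880 * x ^ 3) := by gcongr
      _ ≤ (2 / x) ^ 2 * (1880 * x ^ 3) := by gcongr
      _ = 7520 * x := by
          field_simp
          ring
      _ ≤ 7520 * y ^ 4 := by linarith
  have u3 : p * x ^ 5 ≤ 2 * y ^ 4 := by
    calc p * x ^ 5 ≤ 2 / x ^ 4 * x ^ 5 := by gcongr
      _ = 2 * x := by
          field_simp
      _ ≤ 2 * y ^ 4 := by linarith
  have u4 : p ^ 2 * (Nw + (x ^ 5) ^ 2 + pe) ≤ 12 * y ^ 4 := by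
    calc p ^ 2 * (Nw + (x ^ 5) ^ 2 + pe) ≤ p ^ 2 * (3 * x ^ 10) := by gcongr
      _ ≤ (2 / x ^ 4) ^ 2 * (3 * x ^ 10) := by gcongr
      _ = 12 * x ^ 2 := by
          field_simp
          ring
      _ ≤ 12 * x := by nlinarith
      _ ≤ 12 * y ^ 4 := by linarith
  linarith [pow_pos hy 4]

/-- the additive errors -/
theorem bNz_bound {x : ℝ} {j p : ℕ} (hx : 0 < x) (hx1 : x ≤ 1) (hj : x⁻¹ ≤ j)
    (hp : (x ^ 4)⁻¹ ≤ p) :
    (97 / 100 : ℝ) ^ j + (1 / (1 + x ^ 3 / 2)) ^ p ≤ 2 * Real.exp (-(x⁻¹ / 40)) := by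
  have hxi : 0 < x⁻¹ := by positivity
  have a1 : (97 / 100 : ℝ) ^ j ≤ Real.exp (-(x⁻¹ / 40)) := by
    have b1 : (97 / 100 : ℝ) ≤ Real.exp (-(1 / 40)) := by
      have := Real.add_one_le_exp (-(1 / 40) : ℝ)
      linarith
    calc (97 / 100 : ℝ) ^ j ≤ (Real.exp (-(1 / 40))) ^ j := by gcongr
      _ = Real.exp (-((j : ℝ) / 40)) := by
          rw [← Real.exp_nat_mul]
          congr 1
          ring
      _ ≤ Real.exp (-(x⁻¹ / 40)) := by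
          apply Real.exp_le_exp.2
          linarith
  have a2 : (1 / (1 + x ^ 3 / 2)) ^ p ≤ Real.exp (-(x⁻¹ / 40)) := by
    have hx3 : 0 < x ^ 3 := by positivity
    have hx3' : x ^ 3 ≤ 1 := pow_le_one₀ hx.le hx1
    have b1 : 1 / (1 + x ^ 3 / 2) ≤ Real.exp (-(x ^ 3 / 4)) := by
      have b2 : 1 / (1 + x ^ 3 / 2) ≤ 1 - x ^ 3 / 4 := by
        rw [div_le_iff₀ (by positivity)]
        nlinarith
      have b3 := Real.add_one_le_exp (-(x ^ 3 / 4))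
      linarith
    calc (1 / (1 + x ^ 3 / 2)) ^ p ≤ (Real.exp (-(x ^ 3 / 4))) ^ p := by gcongr
      _ = Real.exp ((p : ℝ) * -(x ^ 3 / 4)) := by rw [← Real.exp_nat_mul]
      _ ≤ Real.exp (-(x⁻¹ / 40)) := by
          apply Real.exp_le_exp.2
          have b4 : (x ^ 4)⁻¹ * (x ^ 3 / 4) ≤ p * (x ^ 3 / 4) := by gcongr
          have b5 : (x ^ 4)⁻¹ * (x ^ 3 / 4) = x⁻¹ / 4 := by
            field_simp
          rw [b5] at b4
          linarith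
  linarith

/-- the sums of `S`, numbers -/
theorem sSz_bound {s ε cm Cw η w CS cs K q N θ : ℝ} {d : ℕ} (hd : 3 ≤ d) (hs : 0 < s)
    (hs1 : s ≤ 1) (hε : 0 < ε) (hε1 : ε ≤ 1) (hcm : 0 < cm) (hCw : 0 < Cw) (hw1 : cm * s ^ 2 ≤ w)
    (hw2 : w ≤ Cw * s ^ 2) (hη0 : 0 < η) (hη : η ≤ s ^ 3) (hCS : 0 ≤ CS) (hcs : 0 ≤ cs)
    (hq1 : s ^ (1 - ε / 4) * Real.sqrt η ≤ q)
    (hN0 : 0 ≤ N) (hqN : q ^ d * N ≤ 2 ^ d)
    (hK : K = CS * cs * ((1 / cm + Cw) * (1 + 2 ^ d)))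
    (hθ : K * s ^ (ε / 2) ≤ s ^ θ) :
    CS * cs * ((1 / w + w / q ^ 2) * N + (q ^ d / w + w * q ^ (d - 2)) * N ^ 2) ≤
      s ^ θ * N / η := by
  have hsη : 0 < Real.sqrt η := Real.sqrt_pos.2 hη0
  set ρ : ℝ := s ^ (1 - ε / 4) * Real.sqrt η with hρ
  have hρ0 : 0 < ρ := by positivity
  have hq0 : 0 < q := by linarith
  have hcs2 : 0 < cm * s ^ 2 := by positivity
  have hw0 : 0 < w := by linarith
  have hle : ∀ α β : ℝ, β ≤ α → s ^ α ≤ s ^ β := fun α β h =>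
    Real.rpow_le_rpow_of_exponent_ge hs hs1 h
  have hs2 : s ^ 2 = s ^ (2 : ℝ) := by
    rw [← Real.rpow_natCast]
    norm_num
  have hse : s ≤ s ^ (ε / 2) := by
    calc s = s ^ (1 : ℝ) := (Real.rpow_one s).symm
      _ ≤ s ^ (ε / 2) := hle _ _ (by linarith)
  -- `η / w`
  have a1 : η / w ≤ 1 / cm * s ^ (ε / 2) := by
    rw [div_le_iff₀ hw0]
    calc η ≤ s ^ 3 := hη
      _ = 1 / cm * s * (cm * s ^ 2) := by field_simp
      _ ≤ 1 / cm * s ^ (ε / 2) * w := by gcongr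
  -- `η w / ρ²`
  have a2 : η * w / ρ ^ 2 ≤ Cw * s ^ (ε / 2) := by
    rw [div_le_iff₀ (by positivity)]
    have b1 : s ^ (ε / 2) * ρ ^ 2 = η * s ^ 2 := by
      have c1 : Real.sqrt η ^ 2 = η := Real.sq_sqrt hη0.le
      rw [hρ, mul_pow, c1, xpow hs, ← mul_assoc, ← Real.rpow_add hs, hs2, mul_comm]
      congr 2
      push_cast
      ring
    calc η * w ≤ η * (Cw * s ^ 2) := by gcongr
      _ = Cw * (η * s ^ 2) := by ring
      _ = Cw * s ^ (ε / 2) * ρ ^ 2 := by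
          rw [← b1]
          ring
  have hsε : 0 < s ^ (ε / 2) := by positivity
  have c1 : η * w / q ^ 2 ≤ Cw * s ^ (ε / 2) := by
    refine le_trans ?_ a2
    gcongr
  have b1 : η * (1 / w + w / q ^ 2) ≤ (1 / cm + Cw) * s ^ (ε / 2) := by
    calc η * (1 / w + w / q ^ 2) = η / w + η * w / q ^ 2 := by ring
      _ ≤ 1 / cm * s ^ (ε / 2) + Cw * s ^ (ε / 2) := add_le_add a1 c1
      _ = _ := by ring
  have hqd2 : q ^ (d - 2) = q ^ d / q ^ 2 := by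
    rw [eq_div_iff (by positivity), ← pow_add]
    congr 1
    omega
  have b2 : η * ((q ^ d / w + w * q ^ (d - 2)) * N) ≤ (1 / cm + Cw) * 2 ^ d * s ^ (ε / 2) := by
    have hqN0 : 0 ≤ q ^ d * N := by positivity
    have d1 : 0 ≤ η / w + η * w / q ^ 2 := by positivity
    calc η * ((q ^ d / w + w * q ^ (d - 2)) * N)
        = (η / w + η * w / q ^ 2) * (q ^ d * N) := by
          rw [hqd2]
          field_simp
      _ ≤ (1 / cm * s ^ (ε / 2) + Cw * s ^ (ε / 2)) * 2 ^ d := by gcongr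
      _ = _ := by ring
  rw [le_div_iff₀ hη0]
  calc CS * cs * ((1 / w + w / q ^ 2) * N + (q ^ d / w + w * q ^ (d - 2)) * N ^ 2) * η
      = CS * cs * (η * (1 / w + w / q ^ 2) +
          η * ((q ^ d / w + w * q ^ (d - 2)) * N)) * N := by ring
    _ ≤ CS * cs * ((1 / cm + Cw) * s ^ (ε / 2) + (1 / cm + Cw) * 2 ^ d * s ^ (ε / 2)) * N := by
        gcongr
    _ = K * s ^ (ε / 2) * N := by
        rw [hK]
        ring
    _ ≤ s ^ θ * N := by gcongr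

/-- the conditions on `s` -/
structure CndZ (K : Cst) (s : ℝ) : Prop extends K.Cnd s where
  z2 : 2 * (s ^ (K.θ / 8)) ^ 38 ≤ K.c₀
  z3 : 5 * (K.d + 2) * s ^ (K.θ / 8) ≤ 1
  z4 : 40 * (2 * K.d + 3) * s ^ (K.θ / 8) ≤ 1
  z5 : K.CI * K.cs * 2 ^ K.d * (4 + K.Cw ^ 2) / K.cm * s ^ (1 / 2 : ℝ) + s ≤ 1
  z6 : K.CF * K.Cw * 4 ^ 6 * s ^ (2 / 3 : ℝ) * (s ^ (-(K.θ / 8))) ^ 6 ≤ (s ^ K.θ) ^ 40
  z7 : s ^ 3 + s ^ K.ε ≤ (s ^ K.θ) ^ 20
  z8 : K.CS * K.cs * ((1 / K.cm + K.Cw) * (1 + 2 ^ K.d)) * s ^ (K.ε / 2) ≤ s ^ (4 * (K.θ / 8))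
  z9 : K.CB * K.Kl * Real.sqrt K.Cw * s * (1 + Real.log (1 / s)) ≤ K.cm / 100
  z10 : K.Cw * s ^ 2 ≤ 1 / 4

theorem evZ {K : Cst} (h : K.Ok) : ∀ᶠ s in 𝓝[>] (0 : ℝ), CndZ K s := by
  have hd := h.dpos
  have hθ := h.θpos
  have hθ72 := h.θ72
  have hε := h.hε.1
  have hε1 := h.hε.2
  have hcm := h.hcm.1
  have e0 : ∀ᶠ s in 𝓝[>] (0 : ℝ), 0 < s := self_mem_nhdsWithin
  have p2 := evc0 2 (38 * (K.θ / 8)) K.c₀ (by positivity) h.hc₀
  have p3 := evc0 (5 * (K.d + 2)) (K.θ / 8) 1 (by positivity) one_pos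
  have p4 := evc0 (40 * (2 * K.d + 3)) (K.θ / 8) 1 (by positivity) one_pos
  have p5 := evc0 (K.CI * K.cs * 2 ^ K.d * (4 + K.Cw ^ 2) / K.cm) (1 / 2) (1 / 2) (by norm_num)
    (by norm_num)
  have p6 := evt0 (K.CF * K.Cw * 4 ^ 6) (2 / 3 - 6 * (K.θ / 8)) (40 * K.θ) (by linarith)
  have p7 := evt0 2 3 (20 * K.θ) (by linarith)
  have p7' := evt0 2 K.ε (20 * K.θ) (by linarith)
  have p8 := evt0 (K.CS * K.cs * ((1 / K.cm + K.Cw) * (1 + 2 ^ K.d))) (K.ε / 2)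
    (4 * (K.θ / 8)) (by linarith)
  have p9 := evc (K.CB * K.Kl * Real.sqrt K.Cw) 1 (K.cm / 100) 1 one_pos (by positivity)
  have p10 := evc0 K.Cw 2 (1 / 4) (by norm_num) (by norm_num)
  filter_upwards [h.ev, e0, p2, p3, p4, p5, p6, p7, p7', p8, p9, p10] with s he e0 p2 p3 p4 p5 p6
    p7 p7' p8 p9 p10
  have hs4 := he.q0.2
  refine { toCnd := he, z2 := ?_, z3 := p3, z4 := p4, z5 := by linarith, z6 := ?_,
           z7 := ?_, z8 := p8, z9 := ?_, z10 := ?_ }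
  · rw [xpow e0]
    push_cast
    exact p2
  · rw [xpow e0, xpow e0]
    have e1 : s ^ (2 / 3 - 6 * (K.θ / 8)) = s ^ (2 / 3 : ℝ) * s ^ (((6 : ℕ) : ℝ) * -(K.θ / 8)) := by
      rw [← Real.rpow_add e0]
      congr 1
      push_cast
      ring
    rw [e1] at p6
    push_cast at p6 ⊢
    linarith
  · rw [xpow e0]
    have e1 : s ^ (3 : ℝ) = s ^ 3 := by
      rw [← Real.rpow_natCast]
      norm_num
    rw [e1] at p7
    push_cast
    linarith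
  · rw [Real.rpow_one, pow_one] at p9
    exact p9
  · have e1 : s ^ (2 : ℝ) = s ^ 2 := by
      rw [← Real.rpow_natCast]
      norm_num
    rw [e1] at p10
    exact p10

/-- the constant -/
theorem exists_cZ {K : Cst} (h : K.Ok) :
    ∃ c : ℝ, 0 < c ∧ c ≤ 1 / 4 ∧ ∀ s : ℝ, 0 < s → s ≤ c → CndZ K s := by
  obtain ⟨u, hu, hu2⟩ := (mem_nhdsGT_iff_exists_Ioc_subset (a := (0 : ℝ))).1 (evZ h)
  have hu0 : (0 : ℝ) < u := hu
  refine ⟨min u (1 / 4), by positivity, min_le_right _ _, fun s hs hs2 => ?_⟩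
  exact hu2 ⟨hs, hs2.trans (min_le_left _ _)⟩

end Pool.Agent.LE.QZ.H84
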