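import Pool.Agent.LE.StmtsQZ
import Pool.Agent.Helper68_LQF.INId
import Pool.Agent.Helper84_LQZ.INIa

/-!
# The parameters (all energies of the bulk): the given data
-/

set_option autoImplicit false

open MeasureTheory ProbabilityTheory Function Filter

open scoped ENNReal BigOperators Topology NNReal ComplexOrder Matrix

noncomputable section

namespace Pool.Agent.LE.QZ.H84

open Pool.Agent.Anderson hiding box mem_box card_box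
open Pool.Agent.Loc Pool.Agent.Mob Pool.Agent.Helper54.Bal
  Pool.Agent.Helper96.EXP Pool.Agent.BED
open Pool.Agent.LE.MN Pool.Agent.LE.CL Pool.Agent.LE.IR Pool.Agent.LE.QD Pool.Agent.LE.QF
open Pool.Agent.LE.QF.H68

/-- the facts about the free resolvent, with the constants of `K` -/
structure FacZ (K : Cst) : Prop where
  khb : ∀ (M : ℕ) [NeZero M] (z : ℂ) (p : Tor K.d M) (i : Fin K.d),
    0 < z.im → z.im ≤ 1 / 2 → K.CK / z.im ^ 2 ≤ M →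
      ‖kh z p‖ ≤ K.CK * (1 + Real.log (1 / z.im)) / z.im *
        Real.sqrt (z.im / (z.im + |Real.sin (Real.pi * ((p i).valMinAbs : ℝ) / M)|)) ∧
      ‖bh z p‖ ≤ K.CK * (1 + Real.log (1 / z.im)) / z.im *
        Real.sqrt (z.im / (z.im + |Real.cos (Real.pi * ((p i).valMinAbs : ℝ) / M)|))
  imm : ∀ (M : ℕ) [NeZero M] (z : ℂ), 0 < z.im → z.im ≤ 1 / 4 → K.CB / z.im ^ 2 ≤ M →
      ‖rs (0 : Tor K.d M → ℝ) ⟨z.re, 2 * z.im⟩ 0 0 - rs (0 : Tor K.d M → ℝ) z 0 0‖ ≤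
        K.CB * (1 + Real.log (1 / z.im)) * Real.sqrt z.im
  frb : ∀ (M : ℕ) [NeZero M] (z : ℂ), 0 < z.im → z.im ≤ 1 →
    K.CF / z.im ^ 2 ≤ M → ∀ x : Tor K.d M, (∀ y, ‖rs (0 : Tor K.d M → ℝ) z x y‖ ≤ K.CF) ∧
      ∑ y, ‖rs (0 : Tor K.d M → ℝ) z x y‖ ^ 4 ≤
        K.CF * z.im ^ (-(2 / 3 : ℝ)) * (1 + Real.log M) ^ 6
  inm : ∀ (M : ℕ) [NeZero M] (J : ℕ) (cs w : ℝ)
    (S Pl : Matrix (Tor K.d M) (Tor K.d M) ℝ), 1 ≤ J → 1 ≤ cs → 0 < w → w ≤ 1 →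
    S = mlt (sy0 cs w J) → Pl = mlt (fun p => if p ∈ low K.d M J then 1 else 0) →
      ((∀ a b, S a b = S b a) ∧ (∀ f, 0 ≤ qf S f) ∧ (∀ a, ∑ b, S a b = 0) ∧
        ∀ a, w * S a a ≤ K.CI * cs * (((J : ℝ) / M) ^ K.d + w ^ 2 * ((J : ℝ) / M) ^ (K.d - 2))) ∧
      ((∀ a b, Pl a b = Pl b a) ∧ Pl * Pl = Pl ∧ (∀ a, Pl a a ≤ K.CI * ((J : ℝ) / M) ^ K.d) ∧
        (∀ a, ∑ b, Pl a b = 1) ∧ S * Pl = S) ∧
      ∀ f, qf S f ≤ 2 * cs / w * (M : ℝ) ^ 2 * ∑ a, f a ^ 2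
  gal : ∀ (M : ℕ) [NeZero M] (ζ : ℂ) (p : Tor K.d M), |ζ.re| ≤ 2 * K.d - K.a / 2 → 0 < ζ.im →
    ζ.im ≤ K.cG → K.CG / ζ.im ≤ M → (∀ i, 8 * |((p i).valMinAbs : ℝ)| ≤ M) →
        kf ζ p ≤ (1 - K.cG * min 1 (ds p / ζ.im ^ 2)) * kf ζ (0 : Tor K.d M)
  mss : ∀ (M : ℕ) [NeZero M] (J J₁ : ℕ) (cs w : ℝ)
    (C' : Finset (Tor K.d M)), 1 ≤ J₁ → 0 < cs → 0 < w →
      ∑ x ∈ C', ∑ y ∈ C', mlt (sy0 cs w J) x y ≤
        K.CS * cs * ((1 / w + w * (M : ℝ) ^ 2 / (J₁ : ℝ) ^ 2) * C'.card +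
          (((J₁ : ℝ) / M) ^ K.d / w + w * ((J₁ : ℝ) / M) ^ (K.d - 2)) * (C'.card : ℝ) ^ 2)

/-- the given data -/
structure GivZ (K : Cst) (M : ℕ) [NeZero M] (s E η : ℝ) (m : ℂ) : Prop where
  hs : CndZ K s
  hE2 : |E| ≤ 2 * K.d - K.a
  hη2 : η ≤ s ^ 3
  hM1 : s ^ (-5 : ℝ) ≤ M
  hM2 : (M : ℝ) ≤ Real.exp (s ^ (-(K.θ / 8)))
  hM3 : s ^ (-K.ε) ≤ η * (M : ℝ) ^ K.d
  hm : rs (0 : Tor K.d M → ℝ) (⟨E, η⟩ + ((s ^ 2 : ℝ) : ℂ) * m) 0 0 = m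
  hm1 : K.cm ≤ m.im
  hm2 : m.im ≤ K.Cm
  hm3 : ‖m‖ ≤ K.Cm * (1 + Real.log (1 / s ^ 2))

/-- the parameters -/
def mkZ (K : Cst) (s E η : ℝ) (m : ℂ) (i : Fin K.d) (ξ : ℝ) (M : ℕ) [NeZero M] : Dat K.d M where
  E := E
  η := η
  T := s ^ 2
  m := m
  δ := (s ^ K.θ) ^ 5
  e₀ := 1 + (s ^ K.θ) ^ 3
  e₁ := 1 + (s ^ K.θ) ^ 3 / 2
  ϖ := (s ^ K.θ) ^ 5 / ((2 + 2 * K.cs / K.cm) * (M : ℝ) ^ 2)
  L₀ := ((s ^ K.θ) ^ 6)⁻¹
  N := (((s ^ K.θ) ^ 5) ^ 4)⁻¹ *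
    (K.CF * (wv s η m) ^ (-(2 / 3 : ℝ)) * (1 + Real.log M) ^ 6)
  π₀ := s ^ 3 + s ^ K.ε
  lam := K.cm * wv s η m * (M : ℝ) ^ 2 / (100 * (M : ℝ) ^ K.d * ξ)
  zt0 := 1 / ξ
  f₁ := fun x => (ec (Pi.single i 1) x).re
  f₂ := fun x => (ec (Pi.single i 1) x).im
  S := mlt (sy0 K.cs (wv s η m) (Jv K s M))
  k := ⌈((s ^ (K.θ / 8)) ^ 2)⁻¹⌉₊
  j := ⌈(s ^ K.θ)⁻¹⌉₊
  p := ⌈((s ^ K.θ) ^ 4)⁻¹⌉₊

variable {K : Cst} {M : ℕ} [NeZero M] {s E η : ℝ} {m : ℂ}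

namespace GivZ

theorem s1 (g : GivZ K M s E η m) : s ≤ 1 := by
  have := g.hs.q0.2
  linarith

theorem Mpos (_g : GivZ K M s E η m) : (0 : ℝ) < M := by
  have : 0 < M := Nat.pos_of_ne_zero (NeZero.ne M)
  exact_mod_cast this

theorem M1 (_g : GivZ K M s E η m) : (1 : ℝ) ≤ M := by
  have : 0 < M := Nat.pos_of_ne_zero (NeZero.ne M)
  exact_mod_cast this

theorem ηpos (g : GivZ K M s E η m) : 0 < η := by
  have h := g.hs.q0.1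
  have hM := g.Mpos
  have h1 : 0 < η * (M : ℝ) ^ K.d := lt_of_lt_of_le (by positivity) g.hM3
  exact (pos_iff_pos_of_mul_pos h1).2 (by positivity)

theorem ηT (g : GivZ K M s E η m) (_hK : K.Ok) : η ≤ s ^ 2 := by
  have h := g.hs.q0.1
  refine g.hη2.trans ?_
  exact pow_le_pow_of_le_one h.le g.s1 (by norm_num)

theorem Mc (g : GivZ K M s E η m) {w C : ℝ} (hK : K.Ok) (hw : K.cm * s ^ 2 ≤ w) (hC : 0 < C)
    (h : C / K.cm ^ 2 * s ≤ 1) : C / w ^ 2 ≤ M := by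
  have hs := g.hs.q0.1
  have hcm := hK.hcm.1
  have h0 : 0 < K.cm * s ^ 2 := by positivity
  calc C / w ^ 2 ≤ C / (K.cm * s ^ 2) ^ 2 := by gcongr
    _ = C / K.cm ^ 2 * s * (s ^ 5)⁻¹ := by field_simp
    _ ≤ 1 * (s ^ 5)⁻¹ := by gcongr
    _ = s ^ (-(5 : ℝ)) := by
        rw [one_mul, Real.rpow_neg hs.le]
        congr 1
        rw [← Real.rpow_natCast]
        norm_num
    _ ≤ M := g.hM1

theorem Mc1 (g : GivZ K M s E η m) {w C : ℝ} (hK : K.Ok) (hw : K.cm * s ^ 2 ≤ w) (hC : 0 < C)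
    (h : C / K.cm * s ≤ 1) : C / w ≤ M := by
  have hs := g.hs.q0.1
  have hcm := hK.hcm.1
  have h0 : 0 < K.cm * s ^ 2 := by positivity
  calc C / w ≤ C / (K.cm * s ^ 2) := by gcongr
    _ = C / K.cm * s * (s ^ 3)⁻¹ := by field_simp
    _ ≤ 1 * (s ^ 3)⁻¹ := by gcongr
    _ = s ^ (-(3 : ℝ)) := by
        rw [one_mul, Real.rpow_neg hs.le]
        congr 1
        rw [← Real.rpow_natCast]
        norm_num
    _ ≤ s ^ (-5 : ℝ) :=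
        Real.rpow_le_rpow_of_exponent_ge hs g.s1 (by norm_num)
    _ ≤ M := g.hM1

theorem w1 (g : GivZ K M s E η m) : K.cm * s ^ 2 ≤ wv s η m := by
  have h1 := g.ηpos
  have h2 : K.cm * s ^ 2 ≤ s ^ 2 * m.im := by
    rw [mul_comm]
    have := g.hm1
    gcongr
  unfold wv
  linarith

theorem wpos (g : GivZ K M s E η m) (hK : K.Ok) : 0 < wv s η m := by
  have h := g.hs.q0.1
  have h1 := g.w1
  have : 0 < K.cm * s ^ 2 := mul_pos hK.hcm.1 (by positivity)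
  linarith

theorem w2 (g : GivZ K M s E η m) (hK : K.Ok) : wv s η m ≤ K.Cw * s ^ 2 := by
  have h1 := g.ηT hK
  have h2 : s ^ 2 * m.im ≤ s ^ 2 * K.Cm := by
    have := g.hm2
    gcongr
  unfold wv Cst.Cw
  linarith

theorem imz (_g : GivZ K M s E η m) :
    (⟨E, η⟩ + ((s ^ 2 : ℝ) : ℂ) * m : ℂ).im = wv s η m := by
  unfold wv
  rw [Complex.add_im, Complex.im_ofReal_mul]

theorem rez (_g : GivZ K M s E η m) :
    (⟨E, η⟩ + ((s ^ 2 : ℝ) : ℂ) * m : ℂ).re = E + s ^ 2 * m.re := by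
  rw [Complex.add_re, Complex.re_ofReal_mul]

theorem shift (g : GivZ K M s E η m) (hK : K.Ok) : |s ^ 2 * m.re| ≤ s ^ (2 - K.ε) / 2 ∧
    |s ^ 2 * m.re| ≤ K.a / 2 := by
  have h := g.hs.q0.1
  have h1 : |m.re| ≤ K.Cm * (1 + Real.log (1 / s ^ 2)) := (Complex.abs_re_le_norm m).trans g.hm3
  have h2 : Real.log (1 / s ^ 2) = 2 * Real.log (1 / s) := by
    rw [one_div, one_div, Real.log_inv, Real.log_inv, Real.log_pow]
    push_cast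
    ring
  have h3 : |s ^ 2 * m.re| ≤ 4 * K.Cm * s ^ 2 * (1 + Real.log (1 / s)) / 2 := by
    rw [abs_mul, abs_of_pos (by positivity)]
    calc s ^ 2 * |m.re| ≤ s ^ 2 * (K.Cm * (1 + Real.log (1 / s ^ 2))) := by gcongr
      _ ≤ s ^ 2 * (K.Cm * (2 * (1 + Real.log (1 / s)))) := by
          have : 0 ≤ K.Cm := by linarith [hK.hCm]
          rw [h2]
          gcongr
          linarith
      _ = _ := by ring
  exact ⟨by linarith [g.hs.q4.1], by linarith [g.hs.q4.2]⟩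

theorem re_le (g : GivZ K M s E η m) (hK : K.Ok) :
    |(⟨E, η⟩ + ((s ^ 2 : ℝ) : ℂ) * m : ℂ).re| ≤ 2 * K.d - K.a / 2 := by
  rw [g.rez]
  have h1 := abs_add_le E (s ^ 2 * m.re)
  have h2 := (g.shift hK).2
  have h3 := g.hE2
  linarith

theorem rpos (g : GivZ K M s E η m) : 0 < K.r s := by
  have h := g.hs.q0.1
  unfold Cst.r
  positivity

theorem xpos (g : GivZ K M s E η m) : 0 < s ^ K.θ := by
  have h := g.hs.q0.1
  positivity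

theorem x1 (g : GivZ K M s E η m) : s ^ K.θ ≤ 1 := by
  have h := g.hs.q5.2
  linarith

theorem rx (g : GivZ K M s E η m) (hK : K.Ok) : s ^ 2 = K.r s * ((s ^ K.θ) ^ 6) ^ 2 := by
  have h := g.hs.q0.1
  rw [← pow_mul, xpow h, Cst.r, hK.rexp, ← Real.rpow_add h, ← Real.rpow_natCast]
  congr 1
  push_cast
  ring

theorem l1 (g : GivZ K M s E η m) : 1 ≤ 1 + Real.log (1 / s) := by
  have h := g.hs.q0.1
  have : 0 ≤ Real.log (1 / s) := Real.log_nonneg (by rw [le_div_iff₀ h]; linarith [g.s1])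
  linarith

theorem lw (g : GivZ K M s E η m) (hK : K.Ok) :
    1 + Real.log (1 / wv s η m) ≤ K.Kl * (1 + Real.log (1 / s)) :=
  lw_bound g.hs.q0.1 g.s1 hK.hcm.1 hK.hcm.2 g.w1

theorem w_half (g : GivZ K M s E η m) (hK : K.Ok) : wv s η m ≤ 1 / 2 :=
  (g.w2 hK).trans g.hs.q1.2.1

theorem lw0 (g : GivZ K M s E η m) (hK : K.Ok) : 1 ≤ 1 + Real.log (1 / wv s η m) := by
  have h := g.wpos hK
  have : 0 ≤ Real.log (1 / wv s η m) :=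
    Real.log_nonneg (by rw [le_div_iff₀ h]; linarith [g.w_half hK])
  linarith

theorem MK (g : GivZ K M s E η m) (hK : K.Ok) : K.CK / (wv s η m) ^ 2 ≤ M :=
  g.Mc hK g.w1 (by linarith [hK.hCK]) g.hs.q3.1

theorem MB (g : GivZ K M s E η m) (hK : K.Ok) : K.CB / (wv s η m) ^ 2 ≤ M :=
  g.Mc hK g.w1 (by linarith [hK.hCB]) g.hs.q3.2.1

theorem MF (g : GivZ K M s E η m) (hK : K.Ok) : K.CF / (wv s η m) ^ 2 ≤ M :=
  g.Mc hK g.w1 (by linarith [hK.hCF]) g.hs.q3.2.2.1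

theorem MG (g : GivZ K M s E η m) (hK : K.Ok) : K.CG / wv s η m ≤ M :=
  g.Mc1 hK g.w1 (by linarith [hK.hCG]) g.hs.q3.2.2.2.1

/-- the self-energy at `2 w` -/
theorem im2 (g : GivZ K M s E η m) (hK : K.Ok) (F : FacZ K) :
    wv s η m / m.im * (rs (0 : Tor K.d M → ℝ) ⟨(⟨E, η⟩ + ((s ^ 2 : ℝ) : ℂ) * m : ℂ).re,
      2 * (⟨E, η⟩ + ((s ^ 2 : ℝ) : ℂ) * m : ℂ).im⟩ 0 0).im ≤ 101 / 100 * wv s η m := by
  have hs := g.hs.q0.1
  have hw := g.wpos hK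
  have hcm := hK.hcm.1
  have hm : 0 < m.im := lt_of_lt_of_le hcm g.hm1
  have h := F.imm M (⟨E, η⟩ + ((s ^ 2 : ℝ) : ℂ) * m) (by rw [g.imz]; exact hw)
    (by rw [g.imz]; exact (g.w2 hK).trans g.hs.z10) (by rw [g.imz]; exact g.MB hK)
  rw [g.hm, g.imz] at h
  rw [g.imz]
  generalize (rs (0 : Tor K.d M → ℝ) ⟨(⟨E, η⟩ + ((s ^ 2 : ℝ) : ℂ) * m : ℂ).re,
    2 * wv s η m⟩ 0 0) = G at h ⊢
  have h0 : 0 ≤ K.CB := by linarith [hK.hCB]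
  have h11 : 0 ≤ K.Kl := by linarith [hK.Klpos]
  have h12 : 0 ≤ 1 + Real.log (1 / s) := by linarith [g.l1]
  have h1 : Real.sqrt (wv s η m) ≤ Real.sqrt K.Cw * s := by
    calc Real.sqrt (wv s η m) ≤ Real.sqrt (K.Cw * s ^ 2) := Real.sqrt_le_sqrt (g.w2 hK)
      _ = Real.sqrt K.Cw * s := by
          rw [Real.sqrt_mul (by linarith [hK.Cwpos]), Real.sqrt_sq hs.le]
  have h2 : ‖G - m‖ ≤ K.cm / 100 := by
    calc ‖G - m‖ ≤ K.CB * (1 + Real.log (1 / wv s η m)) * Real.sqrt (wv s η m) := h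
      _ ≤ K.CB * (K.Kl * (1 + Real.log (1 / s))) * (Real.sqrt K.Cw * s) := by
          have := g.lw hK
          have := g.lw0 hK
          gcongr
      _ = K.CB * K.Kl * Real.sqrt K.Cw * s * (1 + Real.log (1 / s)) := by ring
      _ ≤ K.cm / 100 := g.hs.z9
  have h3 : G.im - m.im ≤ K.cm / 100 := by
    have := (le_abs_self (G - m).im).trans (Complex.abs_im_le_norm (G - m))
    rw [Complex.sub_im] at this
    linarith
  have h4 : G.im ≤ 101 / 100 * m.im := by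
    have := g.hm1
    linarith
  calc wv s η m / m.im * G.im ≤ wv s η m / m.im * (101 / 100 * m.im) := by gcongr
    _ = 101 / 100 * wv s η m := by field_simp

/-- `Im G₀ / w` -/
theorem kf0 (g : GivZ K M s E η m) (hK : K.Ok) (kft : KftStmt) :
    kf (⟨E, η⟩ + ((s ^ 2 : ℝ) : ℂ) * m) (0 : Tor K.d M) = m.im / wv s η m := by
  obtain ⟨-, -, -, -, -, k6⟩ := kft K.d M (⟨E, η⟩ + ((s ^ 2 : ℝ) : ℂ) * m)
    (by rw [g.imz]; exact g.wpos hK)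
  rw [k6, g.imz, g.hm]

/-- the bound for `K` outside of the low momenta -/
theorem kf_high (g : GivZ K M s E η m) (hK : K.Ok) (F : FacZ K) (kft : KftStmt) {p : Tor K.d M}
    (hp : p ∉ low K.d M (Jv K s M)) (hJ : K.r s ≤ (Jv K s M : ℝ) / M) :
    |kf (⟨E, η⟩ + ((s ^ 2 : ℝ) : ℂ) * m) p| ≤
      (s ^ K.θ) ^ 3 / 8 * kf (⟨E, η⟩ + ((s ^ 2 : ℝ) : ℂ) * m) (0 : Tor K.d M) := by
  have hw := g.wpos hK
  have hr := g.rpos
  obtain ⟨k1, -, -, -, -, -⟩ := kft K.d M (⟨E, η⟩ + ((s ^ 2 : ℝ) : ℂ) * m)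
    (by rw [g.imz]; exact hw)
  rw [g.kf0 hK kft, k1 p]
  obtain ⟨i, hi⟩ := sin_low hp
  obtain ⟨h5, -⟩ := F.khb M (⟨E, η⟩ + ((s ^ 2 : ℝ) : ℂ) * m) p i (by rw [g.imz]; exact hw)
    (by rw [g.imz]; exact g.w_half hK) (by rw [g.imz]; exact g.MK hK)
  rw [g.imz] at h5
  have h6 : K.r s ≤ wv s η m + |Real.sin (Real.pi * ((p i).valMinAbs : ℝ) / M)| := by
    have : 2 * (Jv K s M : ℝ) / M = 2 * ((Jv K s M : ℝ) / M) := by ring
    rw [this] at hi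
    linarith
  have h7 := sqrt_bound hw (g.w2 hK) hr (g.rx hK) g.xpos.le h6 (by linarith [hK.Cwpos])
  have h8 : 0 ≤ K.CK := by linarith [hK.hCK]
  have h9 := g.lw hK
  have h10 := g.lw0 hK
  have h11 : 0 ≤ K.Kl := by linarith [hK.Klpos]
  have h12 : 0 ≤ 1 + Real.log (1 / s) := by linarith [g.l1]
  refine (Complex.abs_re_le_norm _).trans (h5.trans ?_)
  calc K.CK * (1 + Real.log (1 / wv s η m)) / wv s η m *
        Real.sqrt (wv s η m / (wv s η m + |Real.sin (Real.pi * ((p i).valMinAbs : ℝ) / M)|))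
      ≤ K.CK * (K.Kl * (1 + Real.log (1 / s))) / wv s η m *
        (Real.sqrt K.Cw * (s ^ K.θ) ^ 6) := by gcongr
    _ = K.CK * K.Kl * (1 + Real.log (1 / s)) * (Real.sqrt K.Cw * (s ^ K.θ) ^ 6) / wv s η m := by
        ring
    _ ≤ K.cm * ((s ^ K.θ) ^ 3 / 8) / wv s η m := by
        have := g.hs.q12
        gcongr
    _ ≤ (s ^ K.θ) ^ 3 / 8 * (m.im / wv s η m) := by
        have a1 := g.hm1
        have a2 : 0 ≤ (s ^ K.θ) ^ 3 / 8 := by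
          have := g.xpos
          positivity
        have a3 : (s ^ K.θ) ^ 3 / 8 * (m.im / wv s η m) =
            m.im * ((s ^ K.θ) ^ 3 / 8) / wv s η m := by ring
        rw [a3]
        gcongr

/-- the number `J` -/
theorem Jb (g : GivZ K M s E η m) (hK : K.Ok) : 1 ≤ Jv K s M ∧ K.r s ≤ (Jv K s M : ℝ) / M ∧
    (Jv K s M : ℝ) / M ≤ 2 * K.r s := by
  have hs := g.hs.q0.1
  apply ceil_bound g.Mpos
  have h0 := hK.θpos
  calc (1 : ℝ) = s ^ (0 : ℝ) := (Real.rpow_zero s).symm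
    _ ≤ s ^ (-(5 : ℝ) + (2 - K.ε / (2 * K.d))) := by
        apply Real.rpow_le_rpow_of_exponent_ge hs g.s1
        rw [hK.rexp]
        linarith
    _ = s ^ (-(5 : ℝ)) * K.r s := Real.rpow_add hs _ _
    _ ≤ M * K.r s := by
        have := g.hM1
        have := g.rpos
        gcongr

end GivZ

end Pool.Agent.LE.QZ.H84
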